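import Pool.Agent.Q178.HG.Core

/-! Certificates: the linearization coefficients of a one-parameter family, as polynomials in the
parameter with integer coefficients. -/

open Finset

namespace Pool.Agent.Q178.HG

/-- polynomials in `u` with integer coefficients -/
abbrev Pl := List ℤ

def addP : Pl → Pl → Pl
  | [], q => q
  | x :: p, [] => x :: p
  | x :: p, y :: q => (x + y) :: addP p q

def scP (c : ℤ) : Pl → Pl
  | [] => []
  | x :: p => (c * x) :: scP c p

def linP (l : ℤ × ℤ) (p : Pl) : Pl := addP (scP l.1 p) (0 :: scP l.2 p)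

noncomputable def ev (u : ℝ) : Pl → ℝ
  | [] => 0
  | x :: p => x + u * ev u p

theorem ev_addP (u : ℝ) : ∀ p q : Pl, ev u (addP p q) = ev u p + ev u q
  | [], q => by simp [addP, ev]
  | x :: p, [] => by simp [addP, ev]
  | x :: p, y :: q => by
    simp only [addP, ev, ev_addP u p q]; push_cast; ring

theorem ev_scP (u : ℝ) (c : ℤ) : ∀ p : Pl, ev u (scP c p) = c * ev u p
  | [] => by simp [scP, ev]
  | x :: p => by simp only [scP, ev, ev_scP u c p]; push_cast; ring

theorem ev_linP (u : ℝ) (l : ℤ × ℤ) (p : Pl) : ev u (linP l p) = (l.1 + u * l.2) * ev u p := by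
  unfold linP
  rw [ev_addP, ev_scP, ev, ev_scP]; push_cast; ring

def nn : Pl → Bool
  | [] => true
  | x :: p => decide (0 ≤ x) && nn p

theorem ev_nonneg {u : ℝ} (hu : 0 ≤ u) : ∀ p : Pl, nn p = true → 0 ≤ ev u p
  | [], _ => le_rfl
  | x :: p, h => by
    simp only [nn, Bool.and_eq_true, decide_eq_true_eq] at h
    have h1 := ev_nonneg hu p h.2
    have h2 : (0 : ℝ) ≤ x := by exact_mod_cast h.1
    rw [ev]; positivity

def nth : List Pl → ℕ → Pl
  | [], _ => []
  | x :: _, 0 => x
  | _ :: xs, n + 1 => nth xs n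

def tab (f : ℕ → Pl) : ℕ → ℕ → List Pl
  | 0, _ => []
  | L + 1, s => f s :: tab f L (s + 1)

theorem nth_tab (f : ℕ → Pl) : ∀ L s n : ℕ, nth (tab f L s) n = if n < L then f (s + n) else []
  | 0, s, n => by simp [tab, nth]
  | L + 1, s, 0 => by simp [tab, nth]
  | L + 1, s, n + 1 => by
    rw [tab, nth, nth_tab f L (s + 1) n]
    have : s + 1 + n = s + (n + 1) := by ring
    rw [this]
    by_cases h : n < L
    · rw [if_pos h, if_pos (by omega)]
    · rw [if_neg h, if_neg (by omega)]

def nnRow : List Pl → Bool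
  | [] => true
  | p :: r => nn p && nnRow r

theorem nnRow_nth : ∀ (r : List Pl) (n : ℕ), nnRow r = true → nn (nth r n) = true
  | [], n, _ => by simp [nth, nn]
  | p :: r, 0, h => by
    simp only [nnRow, Bool.and_eq_true] at h
    exact h.1
  | p :: r, n + 1, h => by
    simp only [nnRow, Bool.and_eq_true] at h
    exact nnRow_nth r n h.2

/-- integer data -/
structure CDat where
  D : ℤ × ℤ
  C : ℕ → ℤ × ℤ

namespace CDat

variable (d : CDat)

def A (n : ℕ) : ℤ × ℤ := match n with
  | 0 => d.D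
  | (k + 1) => (d.D.1 - (d.C (k + 1)).1, d.D.2 - (d.C (k + 1)).2)

def xent (r : List Pl) (n : ℕ) : Pl :=
  addP (match n with
    | 0 => []
    | (k + 1) => linP (d.A k) (nth r k)) (linP (d.C (n + 1)) (nth r (n + 1)))

def row0 (L k : ℕ) : List Pl := tab (fun n => if n = k then [1] else []) L 0

def row1 (L k : ℕ) : List Pl := tab (fun n => d.xent (row0 L k) n) L 0

def step (L m : ℕ) (cur prev : List Pl) : List Pl :=
  tab (fun n => addP (d.xent cur n) (scP (-1) (linP (d.A m) (linP (d.C (m + 1)) (nth prev n))))) L 0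

def rows (L k : ℕ) : ℕ → List Pl × List Pl
  | 0 => (row0 L k, d.row1 L k)
  | (m + 1) => ((rows L k m).2, d.step L m (rows L k m).2 (rows L k m).1)

def loop (L : ℕ) : ℕ → ℕ → List Pl → List Pl → Bool
  | 0, _, _, _ => true
  | (f + 1), m, p, c => nnRow p && loop L f (m + 1) c (d.step L m c p)

theorem loop_spec (L k : ℕ) : ∀ f m : ℕ, d.loop L f m (d.rows L k m).1 (d.rows L k m).2 = true →
    ∀ j < f, nnRow (d.rows L k (m + j)).1 = true
  | 0, m, _, j, hj => absurd hj (by omega)
  | (f + 1), m, h, j, hj => by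
    simp only [loop, Bool.and_eq_true] at h
    rcases j with _ | j
    · exact h.1
    · have := loop_spec L k f (m + 1) h.2 j (by omega)
      have h2 : m + 1 + j = m + (j + 1) := by ring
      rwa [h2] at this

def check (L K : ℕ) : Bool :=
  (List.range K).all fun k => d.loop L (k + 1) 0 (row0 L k) (d.row1 L k)

/-- the real data given by the integer data at the parameter `u` -/
structure Real (u : ℝ) (E : Dat) : Prop where
  u_nonneg : 0 ≤ u
  D_pos : 0 < (d.D.1 : ℝ) + u * d.D.2
  ha : ∀ n, E.a n * ((d.D.1 : ℝ) + u * d.D.2) = (d.A n).1 + u * (d.A n).2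
  hc : ∀ n, 1 ≤ n → E.c n * ((d.D.1 : ℝ) + u * d.D.2) = (d.C n).1 + u * (d.C n).2

variable {d}

/-- normalization -/
noncomputable def pr (E : Dat) (Dv : ℝ) (m : ℕ) : ℝ := ∏ j ∈ range m, (E.a j * Dv)

theorem rows_spec {u : ℝ} {E : Dat} (hR : d.Real u E) (L k : ℕ) : ∀ m : ℕ, k + m + 1 < L → ∀ n : ℕ,
    ev u (nth (d.rows L k m).1 n) = pr E ((d.D.1 : ℝ) + u * d.D.2) m * E.G m k n ∧
    ev u (nth (d.rows L k m).2 n) = pr E ((d.D.1 : ℝ) + u * d.D.2) (m + 1) * E.G (m + 1) k n
  | 0, hL, n => by
    have e0 : ∀ n, ev u (nth (row0 L k) n) = E.G 0 k n := by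
      intro n
      rw [E.G_zero]
      unfold row0
      rw [nth_tab]
      by_cases hn : n = k
      · subst hn
        rw [if_pos (by omega), zero_add, if_pos rfl, if_pos rfl]; simp [ev]
      · by_cases h2 : n < L
        · rw [if_pos h2, zero_add, if_neg hn, if_neg hn]; simp [ev]
        · rw [if_neg h2, if_neg hn]; simp [ev]
    refine ⟨?_, ?_⟩
    · show ev u (nth (row0 L k) n) = _
      rw [e0]; simp [pr]
    · show ev u (nth (d.row1 L k) n) = _
      unfold row1
      rw [nth_tab]
      have hG : ∀ n, E.G 1 k n = E.Xop (fun n => E.G 0 k n) n := by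
        intro n
        rw [E.G_one]
        have : (fun n => E.G 0 k n) = Dat.e k := by
          funext j; rw [E.G_zero]; rfl
        rw [this]
      by_cases h2 : n < L
      · rw [if_pos h2, zero_add, hG]
        simp only [pr, zero_add, prod_range_one]
        unfold xent
        rw [ev_addP]
        have hA := hR.ha
        have hC := hR.hc (n + 1) (by omega)
        rcases n with _ | n
        · simp only [ev, zero_add]
          rw [ev_linP, e0, E.Xop_zero, E.a0, one_mul]
          simp only [zero_add] at hC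
          rw [← hC]; ring
        · simp only
          rw [ev_linP, ev_linP, e0, e0, E.Xop_succ, E.a0, one_mul, ← hC, ← hA n]; ring
      · rw [if_neg h2, E.G_supp 1 k n (by omega)]; simp [ev]
  | (m + 1), hL, n => by
    have ih := rows_spec hR L k m (by omega)
    refine ⟨(ih n).2, ?_⟩
    show ev u (nth (d.step L m (d.rows L k m).2 (d.rows L k m).1) n) = _
    unfold step
    rw [nth_tab]
    by_cases h2 : n < L
    · rw [if_pos h2, zero_add, ev_addP, ev_scP, ev_linP, ev_linP, (ih n).1]
      have hA := hR.ha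
      have hC := hR.hc
      have hx : ev u (d.xent (d.rows L k m).2 n) =
          ((d.D.1 : ℝ) + u * d.D.2) * (pr E ((d.D.1 : ℝ) + u * d.D.2) (m + 1) *
            E.Xop (fun n => E.G (m + 1) k n) n) := by
        unfold xent
        rw [ev_addP, ev_linP, (ih (n + 1)).2]
        have hC1 := hC (n + 1) (by omega)
        rcases n with _ | n
        · simp only [ev, zero_add]
          rw [E.Xop_zero]
          simp only [zero_add] at hC1
          rw [← hC1]; ring
        · simp only
          rw [ev_linP, (ih n).2, E.Xop_succ, ← hC1, ← hA n]; ring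
      rw [hx]
      have hG : E.G (m + 2) k n = (E.a (m + 1))⁻¹ *
          (E.Xop (fun n => E.G (m + 1) k n) n - E.c (m + 1) * E.G m k n) := by
        unfold Dat.G
        rw [E.T_rec]
        simp only [Pi.smul_apply, Pi.sub_apply, smul_eq_mul]
      have hG' : E.G (m + 1 + 1) k n = (E.a (m + 1))⁻¹ *
          (E.Xop (fun n => E.G (m + 1) k n) n - E.c (m + 1) * E.G m k n) := hG
      rw [hG']
      have hp : pr E ((d.D.1 : ℝ) + u * d.D.2) (m + 1 + 1) =
          pr E ((d.D.1 : ℝ) + u * d.D.2) (m + 1) * (E.a (m + 1) * ((d.D.1 : ℝ) + u * d.D.2)) := by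
        unfold pr; rw [prod_range_succ]
      have hp2 : pr E ((d.D.1 : ℝ) + u * d.D.2) (m + 1) =
          pr E ((d.D.1 : ℝ) + u * d.D.2) m * (E.a m * ((d.D.1 : ℝ) + u * d.D.2)) := by
        unfold pr; rw [prod_range_succ]
      rw [hp]
      have ham : E.a (m + 1) ≠ 0 := (E.a_pos (m + 1)).ne'
      rw [← hA m, ← hC (m + 1) (by omega)]
      have e1 : pr E ((d.D.1 : ℝ) + u * d.D.2) (m + 1) * (E.a (m + 1) * ((d.D.1 : ℝ) + u * d.D.2)) *
          ((E.a (m + 1))⁻¹ * (E.Xop (fun n => E.G (m + 1) k n) n - E.c (m + 1) * E.G m k n)) =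
          pr E ((d.D.1 : ℝ) + u * d.D.2) (m + 1) * ((d.D.1 : ℝ) + u * d.D.2) *
          (E.Xop (fun n => E.G (m + 1) k n) n - E.c (m + 1) * E.G m k n) := by
        field_simp
      rw [e1, hp2]
      push_cast
      ring
    · rw [if_neg h2, E.G_supp (m + 1 + 1) k n (by omega)]; simp [ev]

theorem pr_pos {u : ℝ} {E : Dat} (hR : d.Real u E) (m : ℕ) :
    0 < pr E ((d.D.1 : ℝ) + u * d.D.2) m :=
  prod_pos fun j _ => mul_pos (E.a_pos j) hR.D_pos

theorem box {u : ℝ} {E : Dat} (hR : d.Real u E) {L K : ℕ} (hL : 2 * K ≤ L)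
    (hch : d.check L K = true) : ∀ k < K, ∀ m ≤ k, ∀ n, 0 ≤ E.G m k n := by
  intro k hk m hm n
  unfold check at hch
  rw [List.all_eq_true] at hch
  have h1 := hch k (List.mem_range.mpr hk)
  have h2 := d.loop_spec L k (k + 1) 0 h1 m (by omega)
  rw [zero_add] at h2
  have h3 := ev_nonneg hR.u_nonneg _ (nnRow_nth _ n h2)
  rw [(rows_spec hR L k m (by omega) n).1] at h3
  exact nonneg_of_mul_nonneg_right h3 (pr_pos hR m)

end CDat

end Pool.Agent.Q178.HG
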