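import Mathlib

/-! Nonnegative linearization for orthogonal polynomials whose recurrence coefficients are
eventually periodic: a finite check suffices. -/

open Polynomial Finset

namespace Pool.Agent.Q178.HG

/-- recurrence data `x P_n = a_n P_{n+1} + c_n P_{n-1}` -/
structure Dat where
  a : ℕ → ℝ
  c : ℕ → ℝ
  a_pos : ∀ n, 0 < a n
  c_pos : ∀ n, 1 ≤ n → 0 < c n
  a0 : a 0 = 1

namespace Dat

variable (D : Dat)

/-- the polynomials -/
noncomputable def S : ℕ → ℝ[X]
  | 0 => 1
  | 1 => X
  | (n + 2) => C (D.a (n + 1))⁻¹ * (X * S (n + 1) - C (D.c (n + 1)) * S n)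

/-- the shift operator -/
noncomputable def Xop : (ℕ → ℝ) →ₗ[ℝ] (ℕ → ℝ) where
  toFun f n := (match n with
    | 0 => 0
    | (k + 1) => D.a k * f k) + D.c (n + 1) * f (n + 1)
  map_add' f g := by
    funext n
    cases n <;> simp <;> ring
  map_smul' r f := by
    funext n
    cases n <;> simp <;> ring

theorem Xop_zero (f : ℕ → ℝ) : D.Xop f 0 = D.c 1 * f 1 := by
  simp [Xop]

theorem Xop_succ (f : ℕ → ℝ) (n : ℕ) :
    D.Xop f (n + 1) = D.a n * f n + D.c (n + 2) * f (n + 2) := by
  simp [Xop]

/-- `P_m` of the shift operator -/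
noncomputable def T (m : ℕ) : Module.End ℝ (ℕ → ℝ) := aeval (show Module.End ℝ (ℕ → ℝ) from D.Xop) (D.S m)

/-- unit vectors -/
def e (k : ℕ) : ℕ → ℝ := fun n => if n = k then 1 else 0

/-- linearization coefficients -/
noncomputable def G (m k n : ℕ) : ℝ := D.T m (e k) n

theorem T_zero (f : ℕ → ℝ) : D.T 0 f = f := by
  simp [T, S]

theorem T_one (f : ℕ → ℝ) : D.T 1 f = D.Xop f := by
  simp [T, S]

theorem T_rec (m : ℕ) (f : ℕ → ℝ) :
    D.T (m + 2) f = (D.a (m + 1))⁻¹ • (D.Xop (D.T (m + 1) f) - D.c (m + 1) • D.T m f) := by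
  unfold T
  conv_lhs => rw [S]
  simp only [map_mul, map_sub, aeval_X, aeval_C, Module.End.mul_apply, LinearMap.sub_apply,
    Module.algebraMap_end_apply]
  rw [smul_sub]

theorem T_comm (m : ℕ) (f : ℕ → ℝ) : D.Xop (D.T m f) = D.T m (D.Xop f) := by
  unfold T
  have h : (show Module.End ℝ (ℕ → ℝ) from D.Xop) * aeval (show Module.End ℝ (ℕ → ℝ) from D.Xop) (D.S m) =
      aeval (show Module.End ℝ (ℕ → ℝ) from D.Xop) (D.S m) * (show Module.End ℝ (ℕ → ℝ) from D.Xop) := by
    have h1 : (show Module.End ℝ (ℕ → ℝ) from D.Xop) =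
        aeval (show Module.End ℝ (ℕ → ℝ) from D.Xop) (X : ℝ[X]) := (aeval_X _).symm
    conv_lhs => rw [h1, aeval_X]
    nth_rewrite 1 [h1]
    nth_rewrite 4 [h1]
    rw [← map_mul, ← map_mul, mul_comm]
  exact congrArg (fun L : Module.End ℝ (ℕ → ℝ) => L f) h

theorem TT_comm (m k : ℕ) (f : ℕ → ℝ) : D.T m (D.T k f) = D.T k (D.T m f) := by
  unfold T
  rw [← Module.End.mul_apply, ← Module.End.mul_apply, ← map_mul, ← map_mul, mul_comm]

theorem Xop_e_zero : D.Xop (e 0) = D.a 0 • e 1 := by
  funext n
  rcases n with _ | _ | n <;> simp [Xop, e]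

theorem Xop_e_succ (k : ℕ) : D.Xop (e (k + 1)) = D.a (k + 1) • e (k + 2) + D.c (k + 1) • e k := by
  funext n
  rcases n with _ | n
  · rw [Xop_zero]
    simp only [e, Pi.add_apply, Pi.smul_apply, smul_eq_mul]
    by_cases hk : k = 0
    · subst hk; simp
    · have h1 : ¬ (1 = k + 1) := by omega
      have h2 : ¬ (0 = k) := by omega
      simp [h1, h2]
      omega
  · rw [Xop_succ]
    simp only [e, Pi.add_apply, Pi.smul_apply, smul_eq_mul]
    by_cases h1 : n = k + 1
    · subst h1
      have h2 : ¬ (k + 1 + 2 = k + 1) := by omega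
      have h3 : ¬ (k + 1 + 1 = k) := by omega
      simp [h2, h3]
    · by_cases h2 : n + 1 = k
      · subst h2
        simp [h1]
      · have h3 : ¬ (n + 2 = k + 1) := by omega
        have h4 : ¬ (n + 1 = k + 2) := by omega
        simp [h1, h2, h3, h4]

theorem T_e_zero : ∀ k : ℕ, D.T k (e 0) = e k
  | 0 => D.T_zero _
  | 1 => by rw [T_one, Xop_e_zero, D.a0, one_smul]
  | (k + 2) => by
    rw [T_rec, T_e_zero (k + 1), T_e_zero k, Xop_e_succ, add_sub_cancel_right, smul_smul,
      inv_mul_cancel₀ (D.a_pos (k + 1)).ne', one_smul]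

theorem G_symm (m k n : ℕ) : D.G m k n = D.G k m n := by
  unfold G
  rw [← D.T_e_zero k, TT_comm, D.T_e_zero m]

theorem G_zero (k n : ℕ) : D.G 0 k n = if n = k then 1 else 0 := by
  unfold G; rw [T_zero]; rfl

theorem G_out_zero (m k : ℕ) :
    D.G (m + 2) k 0 = (D.a (m + 1))⁻¹ * (D.c 1 * D.G (m + 1) k 1 - D.c (m + 1) * D.G m k 0) := by
  unfold G
  rw [T_rec]
  simp only [Pi.smul_apply, Pi.sub_apply, smul_eq_mul, Xop_zero]

theorem G_out_succ (m k n : ℕ) :
    D.G (m + 2) k (n + 1) = (D.a (m + 1))⁻¹ *
      (D.a n * D.G (m + 1) k n + D.c (n + 2) * D.G (m + 1) k (n + 2) -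
        D.c (m + 1) * D.G m k (n + 1)) := by
  unfold G
  rw [T_rec]
  simp only [Pi.smul_apply, Pi.sub_apply, smul_eq_mul, Xop_succ]

theorem G_in_zero (m n : ℕ) :
    D.G (m + 2) 0 n = (D.a (m + 1))⁻¹ * (D.a 0 * D.G (m + 1) 1 n - D.c (m + 1) * D.G m 0 n) := by
  unfold G
  rw [T_rec, T_comm, Xop_e_zero, map_smul]
  simp only [Pi.smul_apply, Pi.sub_apply, smul_eq_mul]

theorem G_in_succ (m k n : ℕ) :
    D.G (m + 2) (k + 1) n = (D.a (m + 1))⁻¹ *
      (D.a (k + 1) * D.G (m + 1) (k + 2) n + D.c (k + 1) * D.G (m + 1) k n -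
        D.c (m + 1) * D.G m (k + 1) n) := by
  unfold G
  rw [T_rec, T_comm, Xop_e_succ, map_add, map_smul, map_smul]
  simp only [Pi.smul_apply, Pi.sub_apply, Pi.add_apply, smul_eq_mul]

/-- the Haar weights -/
noncomputable def h : ℕ → ℝ
  | 0 => 1
  | (n + 1) => h n * D.a n / D.c (n + 1)

theorem h_pos : ∀ n, 0 < D.h n
  | 0 => one_pos
  | (n + 1) => by
    unfold h
    exact div_pos (mul_pos (h_pos n) (D.a_pos n)) (D.c_pos (n + 1) (by omega))

theorem h_succ (n : ℕ) : D.c (n + 1) * D.h (n + 1) = D.a n * D.h n := by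
  have := D.c_pos (n + 1) (by omega)
  rw [h]; field_simp

theorem G_one (k n : ℕ) : D.G 1 k n = D.Xop (e k) n := by
  unfold G; rw [T_one]

theorem G_one_sym (k n : ℕ) : D.h k * D.G 1 k n = D.h n * D.G 1 n k := by
  rw [G_one, G_one]
  rcases k with _ | k
  · rw [Xop_e_zero]
    rcases n with _ | n
    · simp [Xop_zero, e]
    · rw [Xop_e_succ]
      simp only [Pi.add_apply, Pi.smul_apply, smul_eq_mul, e]
      by_cases hn : n = 0
      · subst hn
        have := D.h_succ 0
        simp
        linarith
      · have h1 : ¬ (0 = n) := by omega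
        simp [hn, h1]
  · rw [Xop_e_succ]
    rcases n with _ | n
    · rw [Xop_e_zero]
      simp only [Pi.add_apply, Pi.smul_apply, smul_eq_mul, e]
      by_cases hk : k = 0
      · subst hk
        have := D.h_succ 0
        simp
        linarith
      · have h1 : ¬ (0 = k) := by omega
        simp [hk, h1]
    · rw [Xop_e_succ]
      simp only [Pi.add_apply, Pi.smul_apply, smul_eq_mul, e]
      by_cases h1 : n = k + 1
      · subst h1
        have := D.h_succ (k + 1)
        rw [if_pos (by omega), if_neg (by omega), if_neg (by omega), if_pos (by omega)]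
        linarith
      · by_cases h2 : k = n + 1
        · subst h2
          have := D.h_succ (n + 1)
          rw [if_neg (by omega), if_pos (by omega), if_pos (by omega), if_neg (by omega)]
          linarith
        · rw [if_neg (by omega), if_neg (by omega), if_neg (by omega), if_neg (by omega)]
          ring

theorem G_sym2 : ∀ m k n : ℕ, D.h k * D.G m k n = D.h n * D.G m n k
  | 0, k, n => by
    rw [G_zero, G_zero]
    by_cases hk : n = k
    · subst hk; rfl
    · have : ¬ (k = n) := fun h => hk h.symm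
      simp [hk, this]
  | 1, k, n => D.G_one_sym k n
  | (m + 2), k, n => by
    have e2 := G_sym2 m k n
    rcases k with _ | k
    · rcases n with _ | n
      · rfl
      · have e1 := G_sym2 (m + 1) 1 (n + 1)
        rw [G_in_zero, G_out_zero]
        have h1 := D.h_succ 0
        linear_combination (D.a (m + 1))⁻¹ * (D.c 1 * e1 - D.c (m + 1) * e2 -
          D.G (m + 1) 1 (n + 1) * h1)
    · have e1 := G_sym2 (m + 1) (k + 2) n
      have e3 := G_sym2 (m + 1) k n
      rw [G_in_succ, G_out_succ]
      have h1 := D.h_succ (k + 1)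
      have h2 := D.h_succ k
      linear_combination (D.a (m + 1))⁻¹ * (D.c (k + 2) * e1 + D.a k * e3 - D.c (m + 1) * e2 -
        D.G (m + 1) (k + 2) n * h1 + D.G (m + 1) k n * h2)

theorem G_supp : ∀ m k n : ℕ, (k + m < n ∨ n + m < k) → D.G m k n = 0
  | 0, k, n, hh => by
    rw [G_zero, if_neg (by omega)]
  | 1, k, n, hh => by
    rw [G_one]
    rcases k with _ | k
    · rw [Xop_e_zero]
      simp only [Pi.smul_apply, smul_eq_mul, e]
      rw [if_neg (by omega), mul_zero]
    · rw [Xop_e_succ]
      simp only [Pi.add_apply, Pi.smul_apply, smul_eq_mul, e]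
      rw [if_neg (by omega), if_neg (by omega)]; ring
  | (m + 2), k, n, hh => by
    rcases n with _ | n
    · rw [G_out_zero, G_supp (m + 1) k 1 (by omega), G_supp m k 0 (by omega)]; ring
    · rw [G_out_succ, G_supp (m + 1) k n (by omega), G_supp (m + 1) k (n + 2) (by omega),
        G_supp m k (n + 1) (by omega)]; ring

/-- eventually periodic data -/
structure Per (N d : ℕ) : Prop where
  pa : ∀ n, N ≤ n → D.a (n + d) = D.a n
  pc : ∀ n, N + 1 ≤ n → D.c (n + d) = D.c n

variable {D}

theorem G_shift {N d : ℕ} (hp : D.Per N d) : ∀ m k n : ℕ, m + 2 * N ≤ k + n →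
    D.G m (k + d) (n + d) = D.G m k n
  | 0, k, n, _ => by
    rw [G_zero, G_zero]
    by_cases hk : n = k
    · subst hk; simp
    · rw [if_neg (by omega), if_neg hk]
  | 1, k, n, hh => by
    rw [G_one, G_one]
    rcases k with _ | k
    · -- then N = 0 or n large
      rw [Xop_e_zero]
      by_cases hn : n = 1
      · subst hn
        have hN : N = 0 := by omega
        subst hN
        rcases d with _ | d
        · simp [Xop_e_zero]
        · have : (0 : ℕ) + (d + 1) = d + 1 := by ring
          rw [this, Xop_e_succ]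
          simp only [Pi.add_apply, Pi.smul_apply, smul_eq_mul, e]
          have h1 : (1 : ℕ) + (d + 1) = d + 2 := by ring
          have h2 : ¬ ((1 : ℕ) + (d + 1) = d) := by omega
          have h3 := hp.pa 0 le_rfl
          rw [zero_add] at h3
          rw [if_pos h1, if_neg h2, h3]; simp
      · have hz : (D.a 0 • e 1 : ℕ → ℝ) n = 0 := by simp [e, hn]
        rw [hz]
        have := D.G_supp 1 (0 + d) (n + d)
        rw [G_one] at this
        by_cases h0 : n = 0
        · subst h0
          rcases d with _ | d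
          · simp [Xop_e_zero, e]
          · have h1 : (0 : ℕ) + (d + 1) = d + 1 := by ring
            rw [h1, Xop_e_succ]
            simp only [Pi.add_apply, Pi.smul_apply, smul_eq_mul, e]
            rw [if_neg (by omega), if_neg (by omega)]; ring
        · exact this (by omega)
    · rcases n with _ | n
      · have h2 : ∀ j : ℕ, D.Xop (e (k + 1 + j)) (0 + j) = if k = 0 then D.c (k + 1 + j) else 0 := by
          intro j
          have h1 : k + 1 + j = (k + j) + 1 := by ring
          rw [h1, Xop_e_succ]
          simp only [Pi.add_apply, Pi.smul_apply, smul_eq_mul, e]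
          rw [if_neg (by omega)]
          by_cases hk : k = 0
          · subst hk; simp
          · rw [if_neg (by omega), if_neg hk]; ring
        have h3 := h2 d
        have h4 := h2 0
        simp only [add_zero] at h4
        rw [h3, h4]
        by_cases hk : k = 0
        · subst hk
          rw [if_pos rfl, if_pos rfl]
          exact hp.pc 1 (by omega)
        · rw [if_neg hk, if_neg hk]
      · have h1 : k + 1 + d = (k + d) + 1 := by ring
        rw [h1, Xop_e_succ, Xop_e_succ]
        simp only [Pi.add_apply, Pi.smul_apply, smul_eq_mul, e]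
        by_cases c1 : n = k + 1
        · subst c1
          rw [if_pos (by omega), if_neg (by omega), if_pos (by omega), if_neg (by omega)]
          have := hp.pa (k + 1) (by omega)
          have h5 : k + d + 1 = k + 1 + d := by ring
          rw [h5, this]; ring
        · by_cases c2 : n + 1 = k
          · rw [if_neg (by omega), if_pos (by omega), if_neg (by omega), if_pos (by omega)]
            have := hp.pc (k + 1) (by omega)
            have h5 : k + d + 1 = k + 1 + d := by ring
            rw [h5, this]; simp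
          · rw [if_neg (by omega), if_neg (by omega), if_neg (by omega), if_neg (by omega)]; ring
  | (m + 2), k, n, hh => by
    rcases n with _ | n
    · by_cases hk : m + 2 < k
      · rw [D.G_supp (m + 2) k 0 (by omega), D.G_supp (m + 2) (k + d) (0 + d) (by omega)]
      · have hN : N = 0 := by omega
        subst hN
        -- n = 0, N = 0 : then k ≥ m + 2, so k = m + 2
        have hk' : k = m + 2 := by omega
        subst hk'
        rw [G_out_zero]
        rcases d with _ | d
        · simp only [add_zero]; rw [G_out_zero]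
        · have h1 : 0 + (d + 1) = d + 1 := by ring
          rw [h1, G_out_succ]
          have e1 := G_shift hp (m + 1) (m + 2) 1 (by omega)
          have e2 := G_shift hp m (m + 2) 0 (by omega)
          have e3 : D.G (m + 1) (m + 2 + (d + 1)) d = 0 := D.G_supp _ _ _ (by omega)
          have h2 : 1 + (d + 1) = d + 2 := by ring
          rw [h2] at e1
          rw [h1] at e2
          have hc := hp.pc 1 le_rfl
          rw [h2] at hc
          rw [e1, e2, e3, hc]; ring
    · have h1 : n + 1 + d = (n + d) + 1 := by ring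
      rw [h1, G_out_succ, G_out_succ]
      have e2 := G_shift hp m k (n + 1) (by omega)
      rw [h1] at e2
      have e1 := G_shift hp (m + 1) k (n + 2) (by omega)
      have h2 : n + 2 + d = n + d + 2 := by ring
      rw [h2] at e1
      rw [e2, e1]
      have e3 : D.a (n + d) * D.G (m + 1) (k + d) (n + d) = D.a n * D.G (m + 1) k n := by
        by_cases c1 : n + (m + 1) < k
        · rw [D.G_supp (m + 1) k n (by omega), D.G_supp (m + 1) (k + d) (n + d) (by omega)]; ring
        · rw [hp.pa n (by omega), G_shift hp (m + 1) k n (by omega)]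
      have e4 : D.c (n + d + 2) * D.G (m + 1) k (n + 2) = D.c (n + 2) * D.G (m + 1) k (n + 2) := by
        by_cases c1 : n + 2 + (m + 1) < k
        · rw [D.G_supp (m + 1) k (n + 2) (by omega)]; ring
        · rw [← h2, hp.pc (n + 2) (by omega)]
      rw [e3, e4]

/-- **The criterion**: it suffices to check the coefficients with all indices less than
`2 (N + d)`. -/
theorem G_nonneg {N d : ℕ} (hd : 1 ≤ d) (hp : D.Per N d)
    (hbox : ∀ k < 2 * (N + d), ∀ m ≤ k, ∀ n < 2 * (N + d), 0 ≤ D.G m k n) :
    ∀ s m k n : ℕ, m + k + n = s → 0 ≤ D.G m k n := by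
  intro s
  induction s using Nat.strong_induction_on with
  | _ s ih =>
    have red : ∀ m k n : ℕ, m + k + n = s → m + 2 * (N + d) ≤ k + n → 0 ≤ D.G m k n := by
      intro m k n hs hh
      by_cases c1 : n + m < k
      · rw [D.G_supp m k n (by omega)]
      by_cases c2 : k + m < n
      · rw [D.G_supp m k n (by omega)]
      obtain ⟨k', rfl⟩ : ∃ k', k = k' + d := ⟨k - d, by omega⟩
      obtain ⟨n', rfl⟩ : ∃ n', n = n' + d := ⟨n - d, by omega⟩
      rw [G_shift hp m k' n' (by omega)]
      exact ih (m + k' + n') (by omega) m k' n' rfl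
    intro m k n hs
    by_cases c1 : m + 2 * (N + d) ≤ k + n
    · exact red m k n hs c1
    by_cases c2 : k + 2 * (N + d) ≤ m + n
    · rw [G_symm]; exact red k m n (by omega) c2
    by_cases c3 : n + 2 * (N + d) ≤ m + k
    · have h1 : 0 ≤ D.G n k m := red n k m (by omega) (by omega)
      rw [G_symm] at h1
      have h2 := D.G_sym2 k n m
      rw [G_symm D m k n]
      have h3 := D.h_pos n
      have h4 := D.h_pos m
      have h5 : 0 ≤ D.h m * D.G k m n := by
        rw [← h2]; exact mul_nonneg h3.le h1
      exact nonneg_of_mul_nonneg_right h5 h4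
    · rcases le_total m k with hmk | hmk
      · exact hbox k (by omega) m hmk n (by omega)
      · rw [G_symm]; exact hbox m (by omega) k hmk n (by omega)

variable (D)

theorem X_mul_S (n : ℕ) : X * D.S (n + 1) = C (D.a (n + 1)) * D.S (n + 2) + C (D.c (n + 1)) * D.S n := by
  rw [S]
  rw [← mul_assoc, ← C_mul, mul_inv_cancel₀ (D.a_pos (n + 1)).ne', C_1, one_mul]
  ring

theorem X_mul_S_zero : X * D.S 0 = C (D.a 0) * D.S 1 := by
  simp [S, D.a0]

/-- Multiplication by `x` in the basis. -/
theorem X_mul_sum (f : ℕ → ℝ) (L : ℕ) (hf : ∀ n, L ≤ n → f n = 0) :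
    X * ∑ n ∈ range L, C (f n) * D.S n = ∑ n ∈ range (L + 1), C (D.Xop f n) * D.S n := by
  have h1 : ∀ K : ℕ, X * ∑ n ∈ range (K + 1), C (f n) * D.S n =
      ∑ n ∈ range (K + 1), C (D.Xop f n) * D.S n + C (D.a K * f K) * D.S (K + 1) -
        C (D.c (K + 1) * f (K + 1)) * D.S K := by
    intro K
    induction K with
    | zero =>
      simp only [zero_add, sum_range_one, Xop_zero]
      rw [mul_left_comm, X_mul_S_zero]
      simp only [C_mul]; ring
    | succ K ihK =>
      rw [sum_range_succ, mul_add, ihK, sum_range_succ (fun n => C (D.Xop f n) * D.S n) (K + 1),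
        Xop_succ, mul_left_comm, X_mul_S]
      simp only [C_mul, C_add]; ring
  rcases L with _ | K
  · simp only [range_zero, sum_empty, mul_zero, zero_add, sum_range_one, Xop_zero]
    rw [hf 1 (by omega)]; simp
  · rw [h1 K, sum_range_succ (fun n => C (D.Xop f n) * D.S n) (K + 1), Xop_succ,
      hf (K + 1) le_rfl, hf (K + 2) (by omega)]
    simp

theorem linearize : ∀ m k : ℕ, D.S m * D.S k = ∑ n ∈ range (m + k + 1), C (D.G m k n) * D.S n
  | 0, k => by
    rw [show D.S 0 = 1 from rfl, one_mul]
    rw [Finset.sum_eq_single k]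
    · rw [G_zero, if_pos rfl, C_1, one_mul]
    · intro j _ hj
      rw [G_zero, if_neg hj]; simp
    · intro hh; exact absurd (Finset.mem_range.mpr (by omega)) hh
  | 1, k => by
    have h0 := linearize 0 k
    have h1 : D.S 1 * D.S k = X * (D.S 0 * D.S k) := by simp [S]
    rw [h1, h0, D.X_mul_sum (fun n => D.G 0 k n) (0 + k + 1) (by
      intro n hn; exact D.G_supp 0 k n (by omega))]
    have h2 : 0 + k + 1 + 1 = 1 + k + 1 := by ring
    rw [h2]
    refine Finset.sum_congr rfl fun n _ => ?_
    have : D.Xop (fun n => D.G 0 k n) n = D.G 1 k n := by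
      rw [G_one]
      have : (fun n => D.G 0 k n) = e k := by
        funext j; rw [G_zero]; rfl
      rw [this]
    rw [this]
  | (m + 2), k => by
    have e1 := linearize (m + 1) k
    have e0 := linearize m k
    have h1 : D.S (m + 2) * D.S k = C (D.a (m + 1))⁻¹ *
        (X * (D.S (m + 1) * D.S k) - C (D.c (m + 1)) * (D.S m * D.S k)) := by
      rw [S]; ring
    rw [h1, e1, e0, D.X_mul_sum (fun n => D.G (m + 1) k n) (m + 1 + k + 1) (by
      intro n hn; exact D.G_supp (m + 1) k n (by omega))]
    have h2 : m + 1 + k + 1 + 1 = m + 2 + k + 1 := by ring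
    rw [h2]
    have h3 : ∑ n ∈ range (m + k + 1), C (D.G m k n) * D.S n =
        ∑ n ∈ range (m + 2 + k + 1), C (D.G m k n) * D.S n := by
      refine Finset.sum_subset (Finset.range_mono (by omega)) fun n _ hn => ?_
      have : m + k + 1 ≤ n := by
        by_contra hc
        exact hn (Finset.mem_range.mpr (by omega))
      rw [D.G_supp m k n (by omega)]; simp
    rw [h3, Finset.mul_sum, ← Finset.sum_sub_distrib, Finset.mul_sum]
    refine Finset.sum_congr rfl fun n _ => ?_
    have h4 : D.G (m + 2) k n = (D.a (m + 1))⁻¹ *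
        (D.Xop (fun n => D.G (m + 1) k n) n - D.c (m + 1) * D.G m k n) := by
      unfold G
      rw [T_rec]
      simp only [Pi.smul_apply, Pi.sub_apply, smul_eq_mul]
    rw [h4]
    simp only [C_mul, C_sub]
    ring

end Dat

end Pool.Agent.Q178.HG
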