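import Pool.Agent.Q178.HG.Fam4

/-! Polynomial hypergroups on the nonnegative integers (recurrence with respect to `P_1`). -/

open Polynomial Finset

namespace Pool.Agent.Q178.HG.Def38

/-- `P_0 = 1`, `P_1 = (x - b_0) / a_0`, `P_1 P_n = a_n P_{n+1} + b_n P_n + c_n P_{n-1}`. -/
noncomputable def P (a b c : ℕ → ℝ) : ℕ → ℝ[X]
  | 0 => 1
  | 1 => C (a 0)⁻¹ * (X - C (b 0))
  | (n + 2) => C (a (n + 1))⁻¹ *
      (C (a 0)⁻¹ * (X - C (b 0)) * P a b c (n + 1) - C (b (n + 1)) * P a b c (n + 1) -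
        C (c (n + 1)) * P a b c n)

/-- The sequences induce a polynomial hypergroup on `ℕ₀`. (As `P_k` has degree `k`, the
coefficients `g` are the linearization coefficients `g(m, n, k)`.) -/
structure PolynomialHypergroup (a b c : ℕ → ℝ) : Prop where
  a_pos : ∀ n, 0 < a n
  b_nonneg : ∀ n, 0 ≤ b n
  c_zero : c 0 = 0
  c_pos : ∀ n, 1 ≤ n → 0 < c n
  sum_one : ∀ n, a n + b n + c n = 1
  lin : ∀ m n, ∃ g : ℕ → ℝ, (∀ k, 0 ≤ g k) ∧
    P a b c m * P a b c n = ∑ k ∈ range (m + n + 1), C (g k) * P a b c k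

/-- The Haar weights `h(n) = (a_1 ⋯ a_{n-1}) / (c_1 ⋯ c_n)`, `n ≥ 1`, and `h(0) = 1`. -/
noncomputable def haar (a c : ℕ → ℝ) (n : ℕ) : ℝ :=
  (∏ k ∈ Ico 1 n, a k) / (∏ k ∈ Icc 1 n, c k)

theorem P_eq (E : Dat) : ∀ n, P E.a (fun _ => 0) E.c n = E.S n
  | 0 => rfl
  | 1 => by simp [P, Dat.S, E.a0]
  | (n + 2) => by rw [P, Dat.S, P_eq E (n + 1), P_eq E n]; simp [E.a0]

theorem hyp4 {s : ℝ} (hs : 3 ≤ s) :
    PolynomialHypergroup (fun n => 1 - c4 s n) (fun _ => 0) (c4 s) where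
  a_pos := (E4 s hs).a_pos
  b_nonneg _ := le_rfl
  c_zero := by simp [c4]
  c_pos := c4_pos hs
  sum_one n := by ring
  lin m n := by
    refine ⟨fun k => (E4 s hs).G m n k, fun k => G4_nonneg hs m n k, ?_⟩
    have h := (E4 s hs).linearize m n
    have e : ∀ n, P (fun n => 1 - c4 s n) (fun _ => 0) (c4 s) n = (E4 s hs).S n :=
      fun n => P_eq (E4 s hs) n
    simp only [e]
    exact h

theorem haar4 {s : ℝ} (hs : 3 ≤ s) :
    haar (fun n => 1 - c4 s n) (c4 s) 3 =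
      s * (s + 1) * (s + 2) / ((s - 1) * (s - 2) ^ 2) := by
  have h1 : s ≠ 0 := by linarith
  have h2 : s - 1 ≠ 0 := by linarith
  have h3 : s - 2 ≠ 0 := by linarith
  have e1 : Ico 1 3 = {1, 2} := by decide
  have e2 : Icc 1 3 = {1, 2, 3} := by decide
  unfold haar
  rw [e1, e2]
  simp [c4]
  field_simp
  ring

theorem small {δ : ℝ} (hδ : 0 < δ) :
    ∃ s : ℝ, 3 ≤ s ∧ s * (s + 1) * (s + 2) / ((s - 1) * (s - 2) ^ 2) < 1 + δ := by
  refine ⟨3 + 40 / δ + 40, by have : 0 < 40 / δ := by positivity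
                              linarith, ?_⟩
  have ht : 0 < 40 / δ := by positivity
  set t := 40 / δ + 40 with htd
  have hδt : δ * t = 40 + 40 * δ := by rw [htd, mul_add]; field_simp
  have ht40 : 40 < t := by rw [htd]; linarith
  have e : 3 + 40 / δ + 40 = 3 + t := by rw [htd]; ring
  rw [e]
  have h1 : 0 < (3 + t - 1) * (3 + t - 2) ^ 2 := by
    have : 0 < 3 + t - 1 := by linarith
    have : 0 < 3 + t - 2 := by linarith
    positivity
  rw [div_lt_iff₀ h1]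
  have h2 : δ * (t * (t * t)) = (40 + 40 * δ) * (t * t) := by rw [← mul_assoc, hδt]
  have h3 : δ * (t * t) = (40 + 40 * δ) * t := by rw [← mul_assoc, hδt]
  have h4 : 40 * t < t * t := by nlinarith
  nlinarith [mul_pos hδ (mul_pos (by linarith : (0:ℝ) < t) (by linarith : (0:ℝ) < t))]

end Pool.Agent.Q178.HG.Def38
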