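import Pool.Agent.Q178.HG.Fam3

/-! Polynomial hypergroups on the nonnegative integers (recurrence with respect to `x`). -/

open Polynomial Finset

namespace Pool.Agent.Q178.HG.Def5c

/-- `P_0 = 1`, `P_1 = (x - b_0) / a_0`, `x P_n = a_n P_{n+1} + b_n P_n + c_n P_{n-1}`. -/
noncomputable def P (a b c : ℕ → ℝ) : ℕ → ℝ[X]
  | 0 => 1
  | 1 => C (a 0)⁻¹ * (X - C (b 0))
  | (n + 2) => C (a (n + 1))⁻¹ *
      ((X - C (b (n + 1))) * P a b c (n + 1) - C (c (n + 1)) * P a b c n)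

/-- The sequences induce a polynomial hypergroup on `ℕ₀`. (As `P_k` has degree `k`, the
coefficients `g` are the linearization coefficients `g(m, n, k)`.) -/
structure PolynomialHypergroup (a b c : ℕ → ℝ) : Prop where
  a_pos : ∀ n, 0 < a n
  b_nonneg : ∀ n, 0 ≤ b n
  c_pos : ∀ n, 1 ≤ n → 0 < c n
  sum_zero : a 0 + b 0 = 1
  sum_one : ∀ n, 1 ≤ n → a n + b n + c n = 1
  lin : ∀ m n, ∃ g : ℕ → ℝ, (∀ k, 0 ≤ g k) ∧
    P a b c m * P a b c n = ∑ k ∈ range (m + n + 1), C (g k) * P a b c k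

/-- The Haar weights `h(n) = (a_0 ⋯ a_{n-1}) / (c_1 ⋯ c_n)`. -/
noncomputable def haar (a c : ℕ → ℝ) (n : ℕ) : ℝ :=
  (∏ k ∈ range n, a k) / (∏ k ∈ range n, c (k + 1))

theorem P_eq (E : Dat) : ∀ n, P E.a (fun _ => 0) E.c n = E.S n
  | 0 => rfl
  | 1 => by simp [P, Dat.S, E.a0]
  | (n + 2) => by rw [P, Dat.S, P_eq E (n + 1), P_eq E n]; simp

theorem hyp3 {s : ℝ} (hs : 3 ≤ s) :
    PolynomialHypergroup (fun n => 1 - c3 s n) (fun _ => 0) (c3 s) where
  a_pos := (E3 s hs).a_pos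
  b_nonneg _ := le_rfl
  c_pos := c3_pos hs
  sum_zero := by simp [c3]
  sum_one n _ := by ring
  lin m n := by
    refine ⟨fun k => (E3 s hs).G m n k, fun k => G3_nonneg hs m n k, ?_⟩
    have h := (E3 s hs).linearize m n
    have e : ∀ n, P (fun n => 1 - c3 s n) (fun _ => 0) (c3 s) n = (E3 s hs).S n :=
      fun n => P_eq (E3 s hs) n
    simp only [e]
    exact h

theorem haar3 {s : ℝ} (hs : 3 ≤ s) :
    haar (fun n => 1 - c3 s n) (c3 s) 2 = s * (s + 1) / ((s - 1) * (s - 2)) := by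
  have h1 : s ≠ 0 := by linarith
  have h2 : s - 1 ≠ 0 := by linarith
  have h3 : s - 2 ≠ 0 := by linarith
  unfold haar
  simp only [prod_range_succ, prod_range_zero, one_mul]
  simp [c3]
  field_simp
  ring

theorem small {δ : ℝ} (hδ : 0 < δ) : ∃ s : ℝ, 3 ≤ s ∧ s * (s + 1) / ((s - 1) * (s - 2)) < 1 + δ := by
  refine ⟨3 + 10 / δ, by have : 0 < 10 / δ := by positivity
                         linarith, ?_⟩
  have ht : 0 < 10 / δ := by positivity
  set t := 10 / δ with htd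
  have hδt : δ * t = 10 := by rw [htd]; field_simp
  have h1 : 0 < (3 + t - 1) * (3 + t - 2) := by
    have : 0 < 3 + t - 1 := by linarith
    have : 0 < 3 + t - 2 := by linarith
    positivity
  rw [div_lt_iff₀ h1]
  have h2 : δ * (t * t) = 10 * t := by rw [← mul_assoc, hδt]
  nlinarith

end Pool.Agent.Q178.HG.Def5c
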