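import Pool.Agent.Q178.HG.Fam3

/-! Symmetric polynomial hypergroups and their dual spaces. -/

open Polynomial Finset

namespace Pool.Agent.Q178.HG.Def5cc

/-- `P_0 = 1`, `P_1 = x`, `x P_n = (1 - c_n) P_{n+1} + c_n P_{n-1}`. -/
noncomputable def P (c : ℕ → ℝ) : ℕ → ℝ[X]
  | 0 => 1
  | 1 => X
  | (n + 2) => C (1 - c (n + 1))⁻¹ * (X * P c (n + 1) - C (c (n + 1)) * P c n)

/-- `(c_n)_{n ≥ 1} ⊂ (0, 1)` and `(P_n)` has nonnegative linearization of products. (As `P_k` has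
degree `k`, the coefficients `g` are the linearization coefficients `g(m, n; k)`.) -/
structure Induces (c : ℕ → ℝ) : Prop where
  mem : ∀ n, 1 ≤ n → 0 < c n ∧ c n < 1
  lin : ∀ m n, ∃ g : ℕ → ℝ, (∀ k, 0 ≤ g k) ∧
    P c m * P c n = ∑ k ∈ range (m + n + 1), C (g k) * P c k

/-- `a_0 = 1`, `a_n = 1 - c_n`. -/
def a (c : ℕ → ℝ) (n : ℕ) : ℝ := if n = 0 then 1 else 1 - c n

/-- Haar weights `h(n) = ∏_{k=1}^n a_{k-1} / c_k`. -/
noncomputable def haar (c : ℕ → ℝ) (n : ℕ) : ℝ := ∏ k ∈ Icc 1 n, a c (k - 1) / c k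

/-- The dual space. -/
def dual (c : ℕ → ℝ) : Set ℝ := {x | ∀ n, |(P c n).eval x| ≤ 1}

theorem P_eq {s : ℝ} (hs : 3 ≤ s) : ∀ n, P (c3 s) n = (E3 s hs).S n
  | 0 => rfl
  | 1 => rfl
  | (n + 2) => by rw [P, Dat.S, P_eq hs (n + 1), P_eq hs n]; rfl

theorem ind3 {s : ℝ} (hs : 3 ≤ s) : Induces (c3 s) where
  mem n hn := ⟨c3_pos hs n hn, c3_lt hs n⟩
  lin m n := by
    refine ⟨fun k => (E3 s hs).G m n k, fun k => G3_nonneg hs m n k, ?_⟩
    have h := (E3 s hs).linearize m n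
    simp only [P_eq hs]
    exact h

theorem haar3 {s : ℝ} (hs : 3 ≤ s) :
    haar (c3 s) 2 = s * (s + 1) / ((s - 1) * (s - 2)) := by
  have h1 : s ≠ 0 := by linarith
  have h2 : s - 1 ≠ 0 := by linarith
  have h3 : s - 2 ≠ 0 := by linarith
  have e2 : Icc 1 2 = {1, 2} := by decide
  unfold haar
  rw [e2]
  simp [c3, a]
  field_simp
  ring

theorem eval_rec (c : ℕ → ℝ) (n : ℕ) :
    (P c (n + 2)).eval 0 = -((1 - c (n + 1))⁻¹ * c (n + 1)) * (P c n).eval 0 := by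
  rw [P]; simp; ring

theorem eval_odd (c : ℕ → ℝ) : ∀ n, (P c (2 * n + 1)).eval 0 = 0
  | 0 => by simp [P]
  | (n + 1) => by
    have : 2 * (n + 1) + 1 = (2 * n + 1) + 2 := by ring
    rw [this, eval_rec, eval_odd c n, mul_zero]

theorem ratio1 {s : ℝ} (hs : 3 ≤ s) (n : ℕ) (h : n % 3 = 1) :
    0 ≤ (1 - c3 s n)⁻¹ * c3 s n ∧ (1 - c3 s n)⁻¹ * c3 s n ≤ 1 := by
  have h1 := c3_lt hs n
  have h2 := c3_pos hs n (by omega)
  have h3 : c3 s n ≤ 1 / 2 := by
    unfold c3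
    rw [if_neg (by omega)]
    split_ifs
    · rw [div_le_div_iff₀ (by linarith) (by norm_num)]; linarith
    · omega
    · omega
    · exact le_rfl
  have h4 : 0 < 1 - c3 s n := by linarith
  refine ⟨by positivity, ?_⟩
  rw [inv_mul_le_iff₀ h4]; linarith

theorem ratio0 {s : ℝ} (hs : 3 ≤ s) (n : ℕ) (hn : 3 ≤ n) (h : n % 3 = 0) :
    (1 - c3 s n)⁻¹ * c3 s n = 1 / (2 * s - 1) := by
  have h1 : c3 s n = 1 / (2 * s) := by
    unfold c3
    rw [if_neg (by omega), if_neg (by omega), if_neg (by omega), if_pos h]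
  have h2 : (2 * s - 1) ≠ 0 := by linarith
  have h3 : s ≠ 0 := by linarith
  have h4 : 1 - 1 / (2 * s) = (2 * s - 1) / (2 * s) := by field_simp
  rw [h1, h4]
  field_simp

theorem ratio2 {s : ℝ} (hs : 3 ≤ s) (n : ℕ) (hn : 3 ≤ n) (h : n % 3 = 2) :
    (1 - c3 s n)⁻¹ * c3 s n = s - 1 := by
  have h1 : c3 s n = (s - 1) / s := by
    unfold c3
    rw [if_neg (by omega), if_neg (by omega), if_neg (by omega), if_neg (by omega),
      if_neg (by omega)]
  have h3 : s ≠ 0 := by linarith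
  have h4 : 1 - (s - 1) / s = 1 / s := by field_simp; ring
  rw [h1, h4]
  field_simp

theorem eval_even {s : ℝ} (hs : 3 ≤ s) : ∀ k, |(P (c3 s) (6 * k)).eval 0| ≤ 1 ∧
    |(P (c3 s) (6 * k + 2)).eval 0| ≤ 1 ∧ |(P (c3 s) (6 * k + 4)).eval 0| ≤ 1 / (2 * s - 1) := by
  have step : ∀ n, |(P (c3 s) (6 * n)).eval 0| ≤ 1 → |(P (c3 s) (6 * n + 2)).eval 0| ≤ 1 ∧
      |(P (c3 s) (6 * n + 4)).eval 0| ≤ 1 / (2 * s - 1) := by
    intro n hn
    have e1 := eval_rec (c3 s) (6 * n)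
    have e2 := eval_rec (c3 s) (6 * n + 2)
    obtain ⟨r1, r2⟩ := ratio1 hs (6 * n + 1) (by omega)
    have r3 := ratio0 hs (6 * n + 2 + 1) (by omega) (by omega)
    have h2 : |(P (c3 s) (6 * n + 2)).eval 0| ≤ 1 := by
      rw [e1, abs_mul, abs_neg, abs_of_nonneg r1]
      calc _ ≤ 1 * 1 := mul_le_mul r2 hn (abs_nonneg _) zero_le_one
        _ = 1 := one_mul 1
    refine ⟨h2, ?_⟩
    have h3 : 0 < 1 / (2 * s - 1) := by
      have : 0 < 2 * s - 1 := by linarith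
      positivity
    have e3 : 6 * n + 4 = 6 * n + 2 + 2 := by ring
    rw [e3, e2, abs_mul, abs_neg, r3, abs_of_pos h3]
    calc _ ≤ 1 / (2 * s - 1) * 1 := mul_le_mul_of_nonneg_left h2 h3.le
      _ = _ := mul_one _
  have main : ∀ k, |(P (c3 s) (6 * k)).eval 0| ≤ 1 := by
    intro k
    induction k with
    | zero => simp [P]
    | succ k ih =>
      obtain ⟨_, h4⟩ := step k ih
      have e1 := eval_rec (c3 s) (6 * k + 4)
      have r := ratio2 hs (6 * k + 4 + 1) (by omega) (by omega)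
      have e3 : 6 * (k + 1) = 6 * k + 4 + 2 := by ring
      rw [e3, e1, abs_mul, abs_neg, r, abs_of_nonneg (by linarith : (0:ℝ) ≤ s - 1)]
      calc _ ≤ (s - 1) * (1 / (2 * s - 1)) := mul_le_mul_of_nonneg_left h4 (by linarith)
        _ ≤ 1 := by
          rw [mul_one_div, div_le_one (by linarith)]; linarith
  exact fun k => ⟨main k, step k (main k)⟩

theorem zero_mem_dual {s : ℝ} (hs : 3 ≤ s) : (0 : ℝ) ∈ dual (c3 s) := by
  intro n
  have hb : 1 / (2 * s - 1) ≤ 1 := by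
    rw [div_le_one (by linarith)]; linarith
  rcases Nat.even_or_odd' n with ⟨m, rfl | rfl⟩
  · obtain ⟨k, hk | hk | hk⟩ : ∃ k, m = 3 * k ∨ m = 3 * k + 1 ∨ m = 3 * k + 2 := ⟨m / 3, by omega⟩
    · have : 2 * m = 6 * k := by omega
      rw [this]; exact (eval_even hs k).1
    · have : 2 * m = 6 * k + 2 := by omega
      rw [this]; exact (eval_even hs k).2.1
    · have : 2 * m = 6 * k + 4 := by omega
      rw [this]; exact (eval_even hs k).2.2.trans hb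
  · rw [eval_odd]; simp

end Pool.Agent.Q178.HG.Def5cc
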