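import Pool.Agent.Q178.HG.Cert

/-! A one-parameter family of polynomial hypergroups with `h(3)` close to one. -/

open Finset

namespace Pool.Agent.Q178.HG

/-- integer data, `s = 3 + u`, denominator `2 s` -/
def C4 : ℕ → ℤ × ℤ := fun n =>
  if n = 0 then (0, 0) else if n = 1 then (2, 1) else if n = 2 then (1, 1)
  else if n = 3 then (2, 2)
  else if n % 4 = 0 then (2, 0) else if n % 4 = 1 then (3, 1) else if n % 4 = 2 then (2, 1)
  else (4, 2)

def d4 : CDat := ⟨(6, 2), C4⟩

theorem check4 : d4.check 32 16 = true := by decide +kernel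

/-- the recurrence coefficients -/
noncomputable def c4 (s : ℝ) (n : ℕ) : ℝ :=
  if n = 0 then 0 else if n = 1 then (s - 1) / (2 * s) else if n = 2 then (s - 2) / (2 * s)
  else if n = 3 then (s - 2) / s
  else if n % 4 = 0 then 1 / s else if n % 4 = 1 then 1 / 2
  else if n % 4 = 2 then (s - 1) / (2 * s) else (s - 1) / s

theorem c4_pos {s : ℝ} (hs : 3 ≤ s) (n : ℕ) (hn : 1 ≤ n) : 0 < c4 s n := by
  unfold c4
  rw [if_neg (by omega)]
  split_ifs <;> first | positivity | (apply div_pos <;> linarith)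

theorem c4_lt {s : ℝ} (hs : 3 ≤ s) (n : ℕ) : c4 s n < 1 := by
  unfold c4
  split_ifs
  · norm_num
  all_goals first | (rw [div_lt_one (by linarith)]; linarith) | norm_num

/-- the data -/
noncomputable def E4 (s : ℝ) (hs : 3 ≤ s) : Dat where
  a n := 1 - c4 s n
  c := c4 s
  a_pos n := by have := c4_lt hs n; linarith
  c_pos := c4_pos hs
  a0 := by simp [c4]

theorem per4 {s : ℝ} (hs : 3 ≤ s) : (E4 s hs).Per 4 4 := by
  have key : ∀ n, 4 ≤ n → c4 s (n + 4) = c4 s n := by
    intro n hn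
    unfold c4
    rw [if_neg (by omega), if_neg (by omega), if_neg (by omega), if_neg (by omega),
      Nat.add_mod_right,
      if_neg (by omega : ¬ n = 0), if_neg (by omega : ¬ n = 1), if_neg (by omega : ¬ n = 2),
      if_neg (by omega : ¬ n = 3)]
  refine ⟨fun n hn => ?_, fun n hn => key n (by omega)⟩
  show 1 - c4 s (n + 4) = 1 - c4 s n
  rw [key n hn]

theorem real4 {s : ℝ} (hs : 3 ≤ s) : d4.Real (s - 3) (E4 s hs) := by
  have hD : ((d4.D.1 : ℤ) : ℝ) + (s - 3) * ((d4.D.2 : ℤ) : ℝ) = 2 * s := by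
    simp [d4]; ring
  have hc : ∀ n, c4 s n * (2 * s) = ((C4 n).1 : ℝ) + (s - 3) * ((C4 n).2 : ℝ) := by
    intro n
    have hs0 : s ≠ 0 := by linarith
    unfold c4 C4
    split_ifs <;> simp <;> field_simp <;> ring
  refine ⟨by linarith, by rw [hD]; linarith, fun n => ?_, fun n _ => ?_⟩
  · rw [hD]
    show (1 - c4 s n) * (2 * s) = _
    rcases n with _ | n
    · simp [c4, CDat.A, d4]; ring
    · have h1 := hc (n + 1)
      simp only [CDat.A, d4]
      push_cast
      rw [sub_mul, h1]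
      ring
  · rw [hD]; exact hc n

theorem G4_nonneg {s : ℝ} (hs : 3 ≤ s) (m k n : ℕ) : 0 ≤ (E4 s hs).G m k n := by
  refine Dat.G_nonneg (by norm_num) (per4 hs) (fun k hk m hm n _ => ?_) _ m k n rfl
  exact CDat.box (real4 hs) (L := 32) (K := 16) (by norm_num) check4 k hk m hm n

end Pool.Agent.Q178.HG
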